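import Pool.Agent.W610.HY.Stm

/-!
# Project HY, part LTWO
-/

set_option autoImplicit false

namespace Pool.Agent.W622.HY.LTWO

open Pool.Agent.W610.HY MeasureTheory Set Metric Filter Topology

/-- mean value property on the unit circle -/
lemma mean (F : ℂ → ℂ) (hF : Differentiable ℂ F) :
    (∫ θ in (0:ℝ)..(2 * Real.pi), F (circleMap 0 1 θ)) = 2 * Real.pi * F 0 := by
  have h := (hF.diffContOnCl (s := ball (0:ℂ) 1)).circleIntegral_sub_inv_smul (w := 0) (by simp)
  rw [circleIntegral] at h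
  have e : ∀ θ : ℝ, deriv (circleMap 0 1) θ • (circleMap (0:ℂ) 1 θ - 0)⁻¹ • F (circleMap 0 1 θ)
      = Complex.I * F (circleMap 0 1 θ) := by
    intro θ
    have hne : circleMap (0:ℂ) 1 θ ≠ 0 := circleMap_ne_center one_ne_zero
    rw [deriv_circleMap, sub_zero, smul_eq_mul, smul_eq_mul]
    field_simp
  simp only [e] at h
  rw [intervalIntegral.integral_const_mul] at h
  have hI := Complex.I_ne_zero
  apply mul_left_cancel₀ hI
  rw [h, smul_eq_mul]
  ring

/-- the quotient of two partial products -/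
noncomputable def gg (p : ℕ → Polynomial ℂ) (n m : ℕ) (z : ℂ) : ℂ :=
  Complex.exp (-(∑ k ∈ Finset.Ico n m, (p k).eval z))

lemma gg_diff (p : ℕ → Polynomial ℂ) (n m : ℕ) : Differentiable ℂ (gg p n m) := by
  unfold gg
  apply Differentiable.cexp
  apply Differentiable.neg
  apply Differentiable.fun_sum
  intro k _
  exact (p k).differentiable

lemma hh_cont (p : ℕ → Polynomial ℂ) (n : ℕ) : Continuous (hh p n) := by
  unfold hh
  apply Complex.continuous_exp.comp
  apply Continuous.neg
  apply continuous_finsetSum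
  intro k _
  exact (p k).continuous

lemma hh_mul (p : ℕ → Polynomial ℂ) {n m : ℕ} (h : n ≤ m) (z : ℂ) :
    hh p m z = hh p n z * gg p n m z := by
  unfold hh gg
  rw [← Complex.exp_add, ← neg_add, Finset.sum_range_add_sum_Ico _ h]

lemma norm_exp_le (w : ℂ) (h : 0 ≤ w.re) : ‖Complex.exp (-w)‖ ≤ 1 := by
  rw [Complex.norm_exp]
  apply Real.exp_le_one_iff.mpr
  simpa using h

lemma point (p : ℕ → Polynomial ℂ)
    (hp : ∀ k (z : ℂ), ‖z‖ = 1 → 0 ≤ ((p k).eval z).re) {n m : ℕ} (h : n ≤ m) (z : ℂ)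
    (hz : ‖z‖ = 1) : ‖hh p m z - hh p n z‖ ^ 2 ≤ 2 - 2 * (gg p n m z).re := by
  have h1 : ‖hh p n z‖ ≤ 1 := by
    apply norm_exp_le
    rw [Complex.re_sum]
    exact Finset.sum_nonneg fun k _ => hp k z hz
  have h2 : ‖gg p n m z‖ ≤ 1 := by
    apply norm_exp_le
    rw [Complex.re_sum]
    exact Finset.sum_nonneg fun k _ => hp k z hz
  have h3 : hh p m z - hh p n z = hh p n z * (gg p n m z - 1) := by
    rw [hh_mul p h z]; ring
  have h4 : ‖hh p m z - hh p n z‖ ≤ ‖gg p n m z - 1‖ := by
    rw [h3, norm_mul]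
    calc ‖hh p n z‖ * ‖gg p n m z - 1‖ ≤ 1 * ‖gg p n m z - 1‖ :=
          mul_le_mul_of_nonneg_right h1 (norm_nonneg _)
      _ = _ := one_mul _
  calc ‖hh p m z - hh p n z‖ ^ 2 ≤ ‖gg p n m z - 1‖ ^ 2 :=
        pow_le_pow_left₀ (norm_nonneg _) h4 2
    _ ≤ 2 - 2 * (gg p n m z).re := by
        have h5 : ‖gg p n m z‖ ^ 2 ≤ 1 := by
          calc ‖gg p n m z‖ ^ 2 ≤ 1 ^ 2 := pow_le_pow_left₀ (norm_nonneg _) h2 2
            _ = 1 := one_pow 2
        rw [Complex.sq_norm, Complex.normSq_apply] at h5 ⊢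
        simp only [Complex.sub_re, Complex.one_re, Complex.sub_im, Complex.one_im]
        nlinarith

theorem main : Pool.Agent.W610.HY.LTWO := by
  intro p hp0 hp n m hnm
  have hci : Continuous (fun θ : ℝ => circleMap (0:ℂ) 1 θ) := continuous_circleMap 0 1
  have hgc : Continuous (fun θ : ℝ => gg p n m (circleMap 0 1 θ)) :=
    (gg_diff p n m).continuous.comp hci
  have hre : Continuous (fun θ : ℝ => (gg p n m (circleMap 0 1 θ)).re) :=
    Complex.continuous_re.comp hgc
  have hz : ∀ θ : ℝ, ‖circleMap (0:ℂ) 1 θ‖ = 1 := by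
    intro θ; simp
  have h2pi : (0:ℝ) ≤ 2 * Real.pi := by positivity
  have step1 : (∫ θ in (0:ℝ)..(2 * Real.pi),
      ‖hh p m (circleMap 0 1 θ) - hh p n (circleMap 0 1 θ)‖ ^ 2)
      ≤ ∫ θ in (0:ℝ)..(2 * Real.pi), (2 - 2 * (gg p n m (circleMap 0 1 θ)).re) := by
    apply intervalIntegral.integral_mono_on h2pi
    · apply Continuous.intervalIntegrable
      exact ((((hh_cont p m).comp hci).sub ((hh_cont p n).comp hci)).norm).pow 2
    · apply Continuous.intervalIntegrable
      exact continuous_const.sub (continuous_const.mul hre)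
    · intro θ _
      exact point p hp hnm _ (hz θ)
  have step2 : (∫ θ in (0:ℝ)..(2 * Real.pi), (2 - 2 * (gg p n m (circleMap 0 1 θ)).re))
      = 4 * Real.pi - 4 * Real.pi * (gg p n m 0).re := by
    rw [intervalIntegral.integral_sub, intervalIntegral.integral_const_mul]
    · have h1 : (∫ θ in (0:ℝ)..(2 * Real.pi), (gg p n m (circleMap 0 1 θ)).re)
          = (∫ θ in (0:ℝ)..(2 * Real.pi), gg p n m (circleMap 0 1 θ)).re := by
        have := Complex.reCLM.intervalIntegral_comp_comm
          (hgc.intervalIntegrable (μ := volume) 0 (2 * Real.pi))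
        simpa using this
      rw [h1, mean _ (gg_diff p n m)]
      simp
      ring
    · exact continuous_const.intervalIntegrable _ _
    · exact (continuous_const.mul hre).intervalIntegrable _ _
  have step3 : (gg p n m 0).re = Real.exp (-(∑ k ∈ Finset.Ico n m, ((p k).eval 0).re)) := by
    have hs : (∑ k ∈ Finset.Ico n m, (p k).eval 0)
        = ((∑ k ∈ Finset.Ico n m, ((p k).eval 0).re : ℝ) : ℂ) := by
      rw [Complex.ofReal_sum]
      apply Finset.sum_congr rfl
      intro k _
      apply Complex.ext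
      · simp
      · simpa using hp0 k
    unfold gg
    rw [hs, ← Complex.ofReal_neg, Complex.exp_ofReal_re]
  have step4 := Real.add_one_le_exp (-(∑ k ∈ Finset.Ico n m, ((p k).eval 0).re))
  refine step1.trans ?_
  rw [step2, step3]
  have hpi := Real.pi_pos
  nlinarith

end Pool.Agent.W622.HY.LTWO
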